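import Mathlib
import Pool.Agent.J4H23.QT.Stm

/-!
# (BLK) of project QT: blocks of a given length, from (PAT)
-/

set_option autoImplicit false

namespace Pool.Agent.J4H54.QT

open Pool.Agent.J4H23.QT Pool.Agent.H891R2.Jones Pool.Agent.W639.RB Pool.Agent.W705.JR

/-- (BLK) of `Pool.Agent.J4H23.QT.Stm`: there are only finitely many patterns of length `L` -/
theorem t_BLK (hP : S_PAT) : S_BLK := by
  intro m L ε hm hε
  classical
  have hfin : {c : List (Fin (m - 1)) | c.length = L}.Finite := List.finite_length_eq _ _
  choose ρ h0 h1 h using hP m ε hm hε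
  let r : List (Fin (m - 1)) → ℝ := fun c => if hc : ∀ j, j ∈ c then ρ c hc else 0
  let s : Finset ℝ := insert 0 (hfin.toFinset.image r)
  have hs : s.Nonempty := Finset.insert_nonempty _ _
  refine ⟨s.max' hs, Finset.le_max' _ _ (Finset.mem_insert_self _ _), ?_, ?_⟩
  · rw [Finset.max'_lt_iff]
    intro y hy
    rcases Finset.mem_insert.1 hy with rfl | hy
    · norm_num
    · obtain ⟨c, -, rfl⟩ := Finset.mem_image.1 hy
      simp only [r]
      split_ifs with hc
      · exact h1 c hc
      · norm_num
  · rintro b ⟨q, rfl, hq, hε', hj⟩ f hf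
    have e : q.map (fun x => (lp x.1 x.2 : Letter m → ℝ)) =
        List.zipWith lp (q.map Prod.fst) (q.map Prod.snd) := by
      rw [List.zipWith_map, List.zipWith_self]
    have k := h (q.map Prod.fst) hj (q.map Prod.snd) (by simp)
      (fun t ht => by
        obtain ⟨x, hx, rfl⟩ := List.mem_map.1 ht
        exact hε' x hx) f hf
    rw [e]
    refine k.trans (mul_le_mul_of_nonneg_right ?_ (norm_nonneg _))
    refine Finset.le_max' _ _ (Finset.mem_insert_of_mem
      (Finset.mem_image.2 ⟨q.map Prod.fst, ?_, ?_⟩))
    · rw [Set.Finite.mem_toFinset]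
      show (q.map Prod.fst).length = L
      rw [List.length_map, hq]
    · simp only [r]
      rw [dif_pos hj]

end Pool.Agent.J4H54.QT
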