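import Mathlib
import Pool.Agent.J4H23.QT.Stm

/-!
# (CON) of project QT: the cones for the trace `-198` (after W705/JR/T3.lean)
-/

set_option autoImplicit false
namespace Pool.Agent.J4H54.QT
open Matrix

private lemma ker_line {b y z : Fin 2 → ℂ} (hb : b ≠ 0) (hy : y ≠ 0) (h1 : b ⬝ᵥ y = 0)
    (h2 : b ⬝ᵥ z = 0) : ∃ t : ℂ, z = t • y := by
  have key : ∀ w : Fin 2 → ℂ, b ⬝ᵥ w = 0 → ∃ s : ℂ, w 0 = s * (-b 1) ∧ w 1 = s * b 0 := by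
    intro w hw
    rw [dotProduct, Fin.sum_univ_two] at hw
    by_cases h0 : b 0 = 0
    · have h1 : b 1 ≠ 0 := by
        intro h1
        apply hb
        funext i
        fin_cases i <;> assumption
      refine ⟨-w 0 / b 1, ?_, ?_⟩
      · field_simp
      · rw [h0, zero_mul, zero_add] at hw
        rw [(mul_eq_zero.1 hw).resolve_left h1, h0, mul_zero]
    · refine ⟨w 1 / b 0, ?_, ?_⟩
      · field_simp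
        linear_combination hw
      · field_simp
  obtain ⟨s, hs0, hs1⟩ := key y h1
  obtain ⟨s', hs0', hs1'⟩ := key z h2
  have hs : s ≠ 0 := by
    intro h
    apply hy
    funext i
    fin_cases i
    · simpa [h] using hs0
    · simpa [h] using hs1
  refine ⟨s' / s, ?_⟩
  funext i
  fin_cases i
  · simp only [Fin.zero_eta, Pi.smul_apply, smul_eq_mul, hs0, hs0']
    field_simp
  · simp only [Fin.mk_one, Pi.smul_apply, smul_eq_mul, hs1, hs1']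
    field_simp

private lemma exists_bound (a₁ c₁ a₂ c₂ : Fin 2 → ℂ) (h : a₂ 0 * c₂ 1 - a₂ 1 * c₂ 0 ≠ 0) :
    ∃ L : ℝ, ∀ x : Fin 2 → ℂ, ‖a₁ ⬝ᵥ x‖ + ‖c₁ ⬝ᵥ x‖ ≤ L * (‖a₂ ⬝ᵥ x‖ + ‖c₂ ⬝ᵥ x‖) := by
  have one : ∀ b : Fin 2 → ℂ, ∃ L : ℝ, ∀ x : Fin 2 → ℂ,
      ‖b ⬝ᵥ x‖ ≤ L * (‖a₂ ⬝ᵥ x‖ + ‖c₂ ⬝ᵥ x‖) := by
    intro b
    refine ⟨‖(b 0 * c₂ 1 - b 1 * c₂ 0) / (a₂ 0 * c₂ 1 - a₂ 1 * c₂ 0)‖ +
      ‖(b 1 * a₂ 0 - b 0 * a₂ 1) / (a₂ 0 * c₂ 1 - a₂ 1 * c₂ 0)‖, fun x => ?_⟩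
    have e : b ⬝ᵥ x = (b 0 * c₂ 1 - b 1 * c₂ 0) / (a₂ 0 * c₂ 1 - a₂ 1 * c₂ 0) * (a₂ ⬝ᵥ x) +
        (b 1 * a₂ 0 - b 0 * a₂ 1) / (a₂ 0 * c₂ 1 - a₂ 1 * c₂ 0) * (c₂ ⬝ᵥ x) := by
      simp only [dotProduct, Fin.sum_univ_two]
      rw [div_mul_eq_mul_div, div_mul_eq_mul_div, ← add_div, eq_div_iff h]
      ring
    rw [e]
    refine (norm_add_le _ _).trans ?_
    rw [norm_mul, norm_mul]
    have h1 := norm_nonneg ((b 0 * c₂ 1 - b 1 * c₂ 0) / (a₂ 0 * c₂ 1 - a₂ 1 * c₂ 0))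
    have h2 := norm_nonneg ((b 1 * a₂ 0 - b 0 * a₂ 1) / (a₂ 0 * c₂ 1 - a₂ 1 * c₂ 0))
    have h3 := norm_nonneg (a₂ ⬝ᵥ x)
    have h4 := norm_nonneg (c₂ ⬝ᵥ x)
    nlinarith [mul_nonneg h1 h4, mul_nonneg h2 h3]
  obtain ⟨L₁, h₁⟩ := one a₁
  obtain ⟨L₂, h₂⟩ := one c₁
  refine ⟨L₁ + L₂, fun x => ?_⟩
  rw [add_mul]
  exact add_le_add (h₁ x) (h₂ x)

private lemma eq_zero_of {a₂ c₂ x : Fin 2 → ℂ} (h : a₂ 0 * c₂ 1 - a₂ 1 * c₂ 0 ≠ 0)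
    (h1 : a₂ ⬝ᵥ x = 0) (h2 : c₂ ⬝ᵥ x = 0) : x = 0 := by
  rw [dotProduct, Fin.sum_univ_two] at h1 h2
  have e0 : (a₂ 0 * c₂ 1 - a₂ 1 * c₂ 0) * x 0 = 0 := by linear_combination c₂ 1 * h1 - a₂ 1 * h2
  have e1 : (a₂ 0 * c₂ 1 - a₂ 1 * c₂ 0) * x 1 = 0 := by linear_combination a₂ 0 * h2 - c₂ 0 * h1
  funext i
  fin_cases i
  · exact (mul_eq_zero.1 e0).resolve_left h
  · exact (mul_eq_zero.1 e1).resolve_left h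

/-- eigen-covector -/
private lemma exists_covec (U : Matrix (Fin 2) (Fin 2) ℂ) (hU : U.det = 1) (hUt : U.trace = -198)
    (l : ℂ) (hl : l ^ 2 + 198 * l + 1 = 0) : ∃ a : Fin 2 → ℂ, a ≠ 0 ∧
      ∀ (M : ℕ) (x : Fin 2 → ℂ), a ⬝ᵥ ((U ^ M) *ᵥ x) = l ^ M * (a ⬝ᵥ x) := by
  have hdet : (U - l • (1 : Matrix (Fin 2) (Fin 2) ℂ)).det = 0 := by
    rw [Matrix.det_fin_two] at hU ⊢
    rw [Matrix.trace_fin_two] at hUt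
    simp only [Matrix.sub_apply, Matrix.smul_apply, smul_eq_mul, Matrix.one_apply_eq, mul_one,
      Matrix.one_apply_ne (show (0 : Fin 2) ≠ 1 by decide),
      Matrix.one_apply_ne (show (1 : Fin 2) ≠ 0 by decide), mul_zero, sub_zero]
    linear_combination hU - l * hUt + hl
  obtain ⟨a, ha, h⟩ := Matrix.exists_vecMul_eq_zero_iff.2 hdet
  have h' : a ᵥ* U = l • a := by
    rw [Matrix.vecMul_sub, Matrix.vecMul_smul, Matrix.vecMul_one, sub_eq_zero] at h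
    exact h
  refine ⟨a, ha, fun M => ?_⟩
  induction M with
  | zero => intro x; simp
  | succ M ih =>
    intro x
    rw [pow_succ, ← Matrix.mulVec_mulVec, ih, Matrix.dotProduct_mulVec, h', smul_dotProduct,
      smul_eq_mul]
    ring

private lemma indep (U V : Matrix (Fin 2) (Fin 2) ℂ)
    (hne : ¬ ∃ x : Fin 2 → ℂ, x ≠ 0 ∧ (∃ c : ℂ, U *ᵥ x = c • x) ∧ ∃ c : ℂ, V *ᵥ x = c • x)
    (a c : Fin 2 → ℂ) (l m : ℂ) (ha : a ≠ 0) (hc : c ≠ 0)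
    (hal : ∀ (M : ℕ) (x : Fin 2 → ℂ), a ⬝ᵥ ((U ^ M) *ᵥ x) = l ^ M * (a ⬝ᵥ x))
    (hcl : ∀ (M : ℕ) (x : Fin 2 → ℂ), c ⬝ᵥ ((V ^ M) *ᵥ x) = m ^ M * (c ⬝ᵥ x)) :
    a 0 * c 1 - a 1 * c 0 ≠ 0 := by
  intro h
  apply hne
  let y : Fin 2 → ℂ := ![-a 1, a 0]
  have hy : y ≠ 0 := by
    intro hy
    apply ha
    have h0 := congrFun hy 0
    have h1 := congrFun hy 1
    simp [y] at h0 h1
    funext i
    fin_cases i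
    · exact h1
    · exact h0
  have hay : a ⬝ᵥ y = 0 := by
    rw [dotProduct, Fin.sum_univ_two]
    simp [y]
    ring
  have hcy : c ⬝ᵥ y = 0 := by
    rw [dotProduct, Fin.sum_univ_two]
    simp [y]
    linear_combination h
  refine ⟨y, hy, ?_, ?_⟩
  · refine ker_line ha hy hay ?_
    have := hal 1 y
    rw [pow_one, pow_one, hay, mul_zero] at this
    exact this
  · refine ker_line hc hy hcy ?_
    have := hcl 1 y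
    rw [pow_one, pow_one, hcy, mul_zero] at this
    exact this

theorem cones (U V : Matrix (Fin 2) (Fin 2) ℂ) (hU : U.det = 1) (hV : V.det = 1)
    (hUt : U.trace = -198) (hVt : V.trace = -198)
    (hne : ¬ ∃ x : Fin 2 → ℂ, x ≠ 0 ∧ (∃ c : ℂ, U *ᵥ x = c • x) ∧ ∃ c : ℂ, V *ᵥ x = c • x) :
    ∃ (M₀ : ℕ) (A B : Set (Fin 2 → ℂ)),
      (∀ x ∈ A, ∀ c : ℂ, c ≠ 0 → c • x ∈ A) ∧ (∀ x ∈ B, ∀ c : ℂ, c ≠ 0 → c • x ∈ B) ∧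
      (∀ x, x ≠ 0 → x ∈ A ∨ x ∈ B) ∧
      ∀ M ≥ M₀, (∀ x ∈ B, (U ^ M) *ᵥ x ∉ B) ∧ (∀ x ∈ A, (V ^ M) *ᵥ x ∉ A) := by
  have h2 : Real.sqrt 2 ^ 2 = 2 := Real.sq_sqrt (by norm_num)
  have h20 : 0 ≤ Real.sqrt 2 := Real.sqrt_nonneg 2
  have h21 : 1 ≤ Real.sqrt 2 := by
    rw [show (1 : ℝ) = Real.sqrt 1 by simp]
    exact Real.sqrt_le_sqrt (by norm_num)
  have h22 : Real.sqrt 2 ≤ 10 / 7 := by
    rw [Real.sqrt_le_left (by norm_num)]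
    norm_num
  have h23 : 7 / 5 ≤ Real.sqrt 2 := by
    apply Real.le_sqrt_of_sq_le
    norm_num
  let l : ℝ := -99 - 70 * Real.sqrt 2
  let l' : ℝ := -99 + 70 * Real.sqrt 2
  have hl : ((l : ℝ) : ℂ) ^ 2 + 198 * (l : ℂ) + 1 = 0 := by
    have : l ^ 2 + 198 * l + 1 = 0 := by simp only [l]; nlinarith
    exact_mod_cast this
  have hl' : ((l' : ℝ) : ℂ) ^ 2 + 198 * (l' : ℂ) + 1 = 0 := by
    have : l' ^ 2 + 198 * l' + 1 = 0 := by simp only [l']; nlinarith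
    exact_mod_cast this
  have nl : 5 ≤ ‖(l : ℂ)‖ := by
    rw [Complex.norm_real, Real.norm_eq_abs, abs_of_nonpos (by simp only [l]; linarith)]
    simp only [l]; linarith
  have nl' : ‖(l' : ℂ)‖ ≤ 1 := by
    rw [Complex.norm_real, Real.norm_eq_abs, abs_le]
    simp only [l']
    constructor <;> linarith
  obtain ⟨a, ha0, ha⟩ := exists_covec U hU hUt l hl
  obtain ⟨a', ha0', ha'⟩ := exists_covec U hU hUt l' hl'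
  obtain ⟨c, hc0, hc⟩ := exists_covec V hV hVt l hl
  obtain ⟨c', hc0', hc'⟩ := exists_covec V hV hVt l' hl'
  have i1 := indep U V hne a c _ _ ha0 hc0 ha hc
  have i2 := indep U V hne a c' _ _ ha0 hc0' ha hc'
  have i3 := indep U V hne a' c _ _ ha0' hc0 ha' hc
  have i4 := indep U V hne a' c' _ _ ha0' hc0' ha' hc'
  obtain ⟨L1, b1⟩ := exists_bound a' c' a c i1
  obtain ⟨L2, b2⟩ := exists_bound a' c a c' i2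
  obtain ⟨L3, b3⟩ := exists_bound a c' a' c i3
  obtain ⟨L4, b4⟩ := exists_bound a c a' c' i4
  let K : ℝ := 1 + |L1| + |L2| + |L3| + |L4|
  have hK1 : L1 < K := by
    simp only [K]; linarith [le_abs_self L1, abs_nonneg L2, abs_nonneg L3, abs_nonneg L4]
  have hK2 : L2 < K := by
    simp only [K]; linarith [le_abs_self L2, abs_nonneg L1, abs_nonneg L3, abs_nonneg L4]
  have hK3 : L3 < K := by
    simp only [K]; linarith [le_abs_self L3, abs_nonneg L2, abs_nonneg L1, abs_nonneg L4]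
  have hK4 : L4 < K := by
    simp only [K]; linarith [le_abs_self L4, abs_nonneg L2, abs_nonneg L3, abs_nonneg L1]
  have hK0 : 0 < K := by
    simp only [K]; linarith [abs_nonneg L1, abs_nonneg L2, abs_nonneg L3, abs_nonneg L4]
  obtain ⟨M₀, hM₀⟩ := pow_unbounded_of_one_lt (K ^ 2) (show (1 : ℝ) < 5 by norm_num)
  -- escape
  have esc : ∀ (W : Matrix (Fin 2) (Fin 2) ℂ) (d d' : Fin 2 → ℂ),
      (∀ (M : ℕ) (x : Fin 2 → ℂ), d ⬝ᵥ ((W ^ M) *ᵥ x) = (l : ℂ) ^ M * (d ⬝ᵥ x)) →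
      (∀ (M : ℕ) (x : Fin 2 → ℂ), d' ⬝ᵥ ((W ^ M) *ᵥ x) = (l' : ℂ) ^ M * (d' ⬝ᵥ x)) →
      ∀ M ≥ M₀, ∀ x : Fin 2 → ℂ, ‖d' ⬝ᵥ x‖ < K * ‖d ⬝ᵥ x‖ →
        ¬ ‖d ⬝ᵥ ((W ^ M) *ᵥ x)‖ < K * ‖d' ⬝ᵥ ((W ^ M) *ᵥ x)‖ := by
    intro W d d' hd hd' M hM x hx h
    rw [hd, hd', norm_mul, norm_mul, norm_pow, norm_pow] at h
    have h5 : (5 : ℝ) ^ M ≤ ‖(l : ℂ)‖ ^ M := pow_le_pow_left₀ (by norm_num) nl M
    have h6 : ‖(l' : ℂ)‖ ^ M ≤ 1 := pow_le_one₀ (norm_nonneg _) nl'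
    have h7 : K ^ 2 < 5 ^ M := lt_of_lt_of_le hM₀ (pow_le_pow_right₀ (by norm_num) hM)
    have h8 : 0 ≤ ‖d' ⬝ᵥ x‖ := norm_nonneg _
    have h9 : 0 < ‖d ⬝ᵥ x‖ := by
      by_contra h10
      have : ‖d ⬝ᵥ x‖ ≤ 0 := not_lt.1 h10
      nlinarith
    have h11 : K * (‖(l' : ℂ)‖ ^ M * ‖d' ⬝ᵥ x‖) ≤ K * (1 * ‖d' ⬝ᵥ x‖) :=
      mul_le_mul_of_nonneg_left (mul_le_mul_of_nonneg_right h6 h8) hK0.le
    have h12 : K * (1 * ‖d' ⬝ᵥ x‖) ≤ K * (K * ‖d ⬝ᵥ x‖) := by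
      rw [one_mul]; exact mul_le_mul_of_nonneg_left hx.le hK0.le
    have h13 : K ^ 2 * ‖d ⬝ᵥ x‖ < ‖(l : ℂ)‖ ^ M * ‖d ⬝ᵥ x‖ :=
      mul_lt_mul_of_pos_right (lt_of_lt_of_le h7 h5) h9
    nlinarith
  -- covering
  have cov : ∀ (a₁ a₂ c₁ c₂ : Fin 2 → ℂ) (L : ℝ), a₂ 0 * c₂ 1 - a₂ 1 * c₂ 0 ≠ 0 → L < K →
      (∀ x : Fin 2 → ℂ, ‖a₁ ⬝ᵥ x‖ + ‖c₁ ⬝ᵥ x‖ ≤ L * (‖a₂ ⬝ᵥ x‖ + ‖c₂ ⬝ᵥ x‖)) →
      ∀ x : Fin 2 → ℂ, K * ‖a₂ ⬝ᵥ x‖ ≤ ‖a₁ ⬝ᵥ x‖ → K * ‖c₂ ⬝ᵥ x‖ ≤ ‖c₁ ⬝ᵥ x‖ → x = 0 := by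
    intro a₁ a₂ c₁ c₂ L hi hL hb x h1 h3
    have h4 := hb x
    have h5 : (K - L) * (‖a₂ ⬝ᵥ x‖ + ‖c₂ ⬝ᵥ x‖) ≤ 0 := by nlinarith
    have h6 : 0 < K - L := by linarith
    have h7 := norm_nonneg (a₂ ⬝ᵥ x)
    have h8 := norm_nonneg (c₂ ⬝ᵥ x)
    have h9 : ‖a₂ ⬝ᵥ x‖ + ‖c₂ ⬝ᵥ x‖ ≤ 0 := by
      by_contra h10
      have := mul_pos h6 (not_le.1 h10)
      linarith
    exact eq_zero_of hi (norm_eq_zero.1 (by linarith)) (norm_eq_zero.1 (by linarith))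
  refine ⟨M₀, {x | ‖c ⬝ᵥ x‖ < K * ‖c' ⬝ᵥ x‖ ∧ ‖c' ⬝ᵥ x‖ < K * ‖c ⬝ᵥ x‖},
    {x | ‖a ⬝ᵥ x‖ < K * ‖a' ⬝ᵥ x‖ ∧ ‖a' ⬝ᵥ x‖ < K * ‖a ⬝ᵥ x‖}, ?_, ?_, ?_, ?_⟩
  · rintro x ⟨h1, h3⟩ e he
    have he' : 0 < ‖e‖ := norm_pos_iff.2 he
    constructor
    · rw [dotProduct_smul, dotProduct_smul, norm_smul, norm_smul]
      nlinarith
    · rw [dotProduct_smul, dotProduct_smul, norm_smul, norm_smul]
      nlinarith
  · rintro x ⟨h1, h3⟩ e he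
    have he' : 0 < ‖e‖ := norm_pos_iff.2 he
    constructor
    · rw [dotProduct_smul, dotProduct_smul, norm_smul, norm_smul]
      nlinarith
    · rw [dotProduct_smul, dotProduct_smul, norm_smul, norm_smul]
      nlinarith
  · intro x hx
    by_contra hcon
    rw [not_or] at hcon
    obtain ⟨hA, hB⟩ := hcon
    apply hx
    have hA' : K * ‖c' ⬝ᵥ x‖ ≤ ‖c ⬝ᵥ x‖ ∨ K * ‖c ⬝ᵥ x‖ ≤ ‖c' ⬝ᵥ x‖ := by
      by_contra hh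
      rw [not_or, not_le, not_le] at hh
      exact hA hh
    have hB' : K * ‖a' ⬝ᵥ x‖ ≤ ‖a ⬝ᵥ x‖ ∨ K * ‖a ⬝ᵥ x‖ ≤ ‖a' ⬝ᵥ x‖ := by
      by_contra hh
      rw [not_or, not_le, not_le] at hh
      exact hB hh
    rcases hA' with h1 | h1 <;> rcases hB' with h3 | h3
    · exact cov a a' c c' L4 i4 hK4 b4 x h3 h1
    · exact cov a' a c c' L2 i2 hK2 b2 x h3 h1
    · exact cov a a' c' c L3 i3 hK3 b3 x h3 h1
    · exact cov a' a c' c L1 i1 hK1 b1 x h3 h1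
  · intro M hM
    constructor
    · rintro x ⟨h1, h3⟩ ⟨h4, h5⟩
      exact esc U a a' ha ha' M hM x h3 h4
    · rintro x ⟨h1, h3⟩ ⟨h4, h5⟩
      exact esc V c c' hc hc' M hM x h3 h4

/-- (CON) of `Pool.Agent.J4H23.QT.Stm` -/
theorem t_CON : Pool.Agent.J4H23.QT.S_CON := fun U V hU hV hUt hVt hne =>
  cones U V hU hV hUt hVt hne

end Pool.Agent.J4H54.QT
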