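import Mathlib
import Pool.Agent.J4H23.QT.Stm

/-!
# (HK) of project QT: the probability of a value, with given gaps
-/

set_option autoImplicit false

namespace Pool.Agent.J4H54.QT

open Finset Matrix Pool.Agent.H891R2.Jones Pool.Agent.W639.RB Pool.Agent.W705.JR
open Pool.Agent.J4H23.QT

theorem sum_lp {m : ℕ} (j : Fin (m - 1)) (t : ℝ) (G : Letter m → ℝ) :
    ∑ l, (lp j t l : ℝ) * G l = t * G (true, j) + (1 - t) * G (false, j) := by
  have e1 : ∑ l, (lp j t l : ℝ) * G l =
      ∑ b : Bool, ∑ i : Fin (m - 1), (lp j t (b, i) : ℝ) * G (b, i) :=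
    Fintype.sum_prod_type (fun l : Bool × Fin (m - 1) => (lp j t l : ℝ) * G l)
  rw [e1, Fintype.sum_bool]
  have e2 : ∀ b : Bool, ∑ i : Fin (m - 1), (lp j t (b, i) : ℝ) * G (b, i) =
      (if b then t else 1 - t) * G (b, j) := by
    intro b
    rw [Finset.sum_eq_single j]
    · unfold Pool.Agent.J4H23.QT.lp
      simp
    · intro i _ hij
      unfold Pool.Agent.J4H23.QT.lp
      simp [hij]
    · intro h
      exact absurd (Finset.mem_univ j) h
  rw [e2, e2]
  simp

/-- (HK) of `Pool.Agent.J4H23.QT.Stm` -/
theorem t_HK : S_HK := by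
  classical
  intro m hm z n
  induction n with
  | zero =>
    intro O c p
    rw [List.ofFn_zero, Fintype.sum_unique]
    have h : ∀ s : Fin 0 → Bool, draw O (toL fun i => ((s i, c i) : Letter m)) = O :=
      fun s => rfl
    rw [h _]
    unfold hitL
    simp only [xi_mem_iff hm, Finset.univ_eq_empty, Finset.prod_empty]
  | succ n ih =>
    intro O c p
    rw [List.ofFn_succ]
    have e1 : hitL gg (xi m) (lp (c 0) (p 0) :: List.ofFn fun i : Fin n => lp (c i.succ) (p i.succ))
        (LinearMap.ker (fn O z)) = ∑ l, (lp (c 0) (p 0) l : ℝ) *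
          hitL gg (xi m) (List.ofFn fun i : Fin n => lp (c i.succ) (p i.succ))
            ((act (gg l))⁻¹ (LinearMap.ker (fn O z))) := rfl
    rw [e1, sum_lp, act_ker, act_ker, ih, ih]
    set F : (Fin (n + 1) → Bool) → ℝ := fun s =>
      if ev 3 le_rfl (draw O (toL fun i => ((s i, c i) : Letter m))).close.fPoly = z
        then ∏ i, (if s i then p i else 1 - p i) else (0 : ℝ) with hF
    have e3 := (Fin.consEquiv (fun _ : Fin (n + 1) => Bool)).sum_comp F
    have e5 := Fintype.sum_prod_type (fun i : Bool × (Fin n → Bool) =>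
      F ((Fin.consEquiv (fun _ : Fin (n + 1) => Bool)) i))
    have e6 : ∀ b : Bool, ∑ s : Fin n → Bool, F ((Fin.consEquiv (fun _ : Fin (n + 1) => Bool)) (b, s))
        = (if b then p 0 else 1 - p 0) * ∑ s : Fin n → Bool,
          (if ev 3 le_rfl (draw (O.push b (c 0)) (toL fun i =>
            ((s i, c i.succ) : Letter m))).close.fPoly = z
            then ∏ i : Fin n, (if s i then p i.succ else 1 - p i.succ) else 0) := by
      intro b
      rw [Finset.mul_sum]
      refine Finset.sum_congr rfl fun s _ => ?_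
      have h2 : (Fin.consEquiv (fun _ : Fin (n + 1) => Bool)) (b, s) =
        (Fin.cons b s : Fin (n + 1) → Bool) := rfl
      rw [h2, hF]
      dsimp only
      have h3 : (fun i => (((Fin.cons b s : Fin (n + 1) → Bool) i, c i) : Letter m)) =
          (Fin.cons ((b, c 0) : Letter m) (fun i : Fin n => ((s i, c i.succ) : Letter m)) :
            Fin (n + 1) → Letter m) := by
        funext i
        refine Fin.cases ?_ (fun i => ?_) i
        · simp
        · simp
      rw [h3, draw_cons, Fin.prod_univ_succ]
      simp only [Fin.cons_zero, Fin.cons_succ]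
      split_ifs <;> ring
    rw [← e3]
    refine Eq.trans ?_ e5.symm
    rw [Fintype.sum_bool, e6, e6]
    simp

end Pool.Agent.J4H54.QT
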